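import Mathlib
import Pool.Agent.Lib.helper33.Bhargava

set_option autoImplicit false

namespace Pool.Agent.Results.MP_e482b1_nt.Twin22
open Pool.Agent.Lib.helper33.Bhargava

def l1 : List ℕ := [2, 3, 5, 7, 11, 13, 17, 19, 23, 29, 31, 37, 41, 43, 47, 61, 67, 73, 79, 101,
  127, 131, 137]
def l2 : List ℕ := [3, 5, 7, 11, 13, 17, 19, 29, 31, 41, 43, 59, 61, 71, 73, 101, 103, 107, 109,
  137, 139, 149, 151]

lemma h1 : ∀ n ∈ l1, n ∈ {p : ℕ | p.Prime} := by
  simp only [l1, List.forall_mem_cons, Set.mem_ofPred_eq]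
  norm_num

lemma h2 : ∀ n ∈ l2, n ∈ {p : ℕ | p.Prime ∧ ((p - 2).Prime ∨ (p + 2).Prime)} := by
  simp only [l2, List.forall_mem_cons, Set.mem_ofPred_eq]
  norm_num

/-- At `n = 22` both factorials are defined and the conjectured identity fails. -/
theorem result : Defined P2 22 ∧ Defined P 22 ∧
    ∀ a b, IsOrds P2 a → IsOrds P b → fact a 22 ≠ 2 * w 2 22 * fact b 22 := by
  have d2 : Defined P2 22 := defined 22 _ (sub_image l2 h2) (by decide +kernel) 151
    (by decide +kernel)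
  have d1 : Defined P 22 := defined 22 _ (sub_image l1 h1) (by decide +kernel) 151
    (by decide +kernel)
  refine ⟨d2, d1, fun a b ha hb => main ⟨23, by norm_num⟩ ?_ d2 d1 _ (sub_image l1 h1)
    (by decide +kernel) _ ?_ ha hb⟩
  · rintro _ ⟨n, ⟨p1, p2⟩, rfl⟩ h
    obtain rfl : 23 = n := (Nat.prime_dvd_prime_iff_eq (by norm_num) p1).1 (by exact_mod_cast h)
    norm_num at p2
  · rw [w_small 2 22 1 (by norm_num) (by norm_num)]
    norm_num

end Pool.Agent.Results.MP_e482b1_nt.Twin22
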